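import Pool.Agent.Lib.MP_7b6720_al.INV.Iface

set_option autoImplicit false

/-!
# TRANS: multiple transitivity of groups containing the alternating group
-/

namespace Pool.Agent.SymDiam.H98

open Equiv Finset

theorem trans : TransS := by
  intro n k hk A hA e e'
  have h0 := alternatingGroup.isMultiplyPretransitive (Fin n)
  rw [Nat.card_fin] at h0
  have h1 : MulAction.IsMultiplyPretransitive (alternatingGroup (Fin n)) (Fin n) k :=
    MulAction.isMultiplyPretransitive_of_le (n := n - 2) (by omega)
      (by rw [Nat.card_fin]; omega)
  obtain ⟨g, hg⟩ := MulAction.exists_smul_eq (alternatingGroup (Fin n)) e e'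
  refine ⟨g, hA g.2, fun i => ?_⟩
  exact congrArg (fun f : Fin k ↪ Fin n => f i) hg

end Pool.Agent.SymDiam.H98
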