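import Pool.Agent.Lib.MP_7b6720_al.INV.Iface

set_option autoImplicit false

/-!
# GENS: a small generating subset
-/

namespace Pool.Agent.SymDiam.H98

open Equiv Finset

/-- the closure of an independent finite set has at least `2 ^ |B|` elements -/
theorem two_pow_le {G : Type} [Group G] [Finite G] [DecidableEq G] (B : Finset G) :
    (∀ b ∈ B, b ∉ Subgroup.closure ((B.erase b : Finset G) : Set G)) →
      2 ^ B.card ≤ Nat.card (Subgroup.closure (B : Set G)) := by
  induction B using Finset.induction_on with
  | empty =>
    intro _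
    simp
  | insert a s ha ih =>
    intro hB
    have h1 : ∀ b ∈ s, b ∉ Subgroup.closure ((s.erase b : Finset G) : Set G) := by
      intro b hb hmem
      refine hB b (Finset.mem_insert_of_mem hb) (Subgroup.closure_mono ?_ hmem)
      intro x hx
      have hx' := Finset.mem_coe.mp hx
      rw [Finset.mem_erase] at hx'
      rw [Finset.mem_coe, Finset.mem_erase]
      exact ⟨hx'.1, Finset.mem_insert_of_mem hx'.2⟩
    have h2 := ih h1
    have h3 : a ∉ Subgroup.closure ((s : Finset G) : Set G) := by
      have := hB a (Finset.mem_insert_self a s)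
      rwa [Finset.erase_insert ha] at this
    set K : Subgroup G := Subgroup.closure ((s : Finset G) : Set G) with hK
    set H : Subgroup G := Subgroup.closure ((insert a s : Finset G) : Set G) with hH
    have hKH : K ≤ H := by
      apply Subgroup.closure_mono
      intro x hx
      exact Finset.mem_coe.mpr (Finset.mem_insert_of_mem (Finset.mem_coe.mp hx))
    have haH : a ∈ H := Subgroup.subset_closure (Finset.mem_coe.mpr (Finset.mem_insert_self a s))
    have hdvd := Subgroup.card_dvd_of_le hKH
    obtain ⟨c, hc⟩ := hdvd
    have hposH : 0 < Nat.card H := Nat.card_pos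
    have hposK : 0 < Nat.card K := Nat.card_pos
    have hc2 : 2 ≤ c := by
      by_contra hcon
      have : c = 0 ∨ c = 1 := by omega
      rcases this with h | h
      · rw [h] at hc; omega
      · rw [h, mul_one] at hc
        have : K = H := Subgroup.eq_of_le_of_card_ge hKH (by rw [hc])
        exact h3 (this ▸ haH)
    rw [Finset.card_insert_of_notMem ha, pow_succ, hc]
    exact Nat.mul_le_mul h2 hc2

theorem gens : GensS := by
  intro n A
  classical
  -- finite sets with the same closure
  have hex : ∃ m : ℕ, ∃ B : Finset (Perm (Fin n)), B.card = m ∧ (∀ b ∈ B, b ∈ A) ∧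
      Subgroup.closure (B : Set (Perm (Fin n))) = Subgroup.closure A := by
    refine ⟨A.toFinite.toFinset.card, A.toFinite.toFinset, rfl, ?_, ?_⟩
    · intro b hb
      exact (Set.Finite.mem_toFinset _).mp hb
    · rw [Set.Finite.coe_toFinset]
  obtain ⟨B, hB, hBA, hcl⟩ := Nat.find_spec hex
  refine ⟨B, hBA, hcl, ?_⟩
  have hind : ∀ b ∈ B, b ∉ Subgroup.closure ((B.erase b : Finset (Perm (Fin n))) :
      Set (Perm (Fin n))) := by
    intro b hb hmem
    have hlt : (B.erase b).card < Nat.find hex := by
      rw [← hB]; exact Finset.card_erase_lt_of_mem hb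
    refine Nat.find_min hex hlt ⟨B.erase b, rfl, fun x hx => hBA x (Finset.mem_of_mem_erase hx), ?_⟩
    rw [← hcl]
    apply le_antisymm
    · apply Subgroup.closure_mono
      intro x hx
      exact Finset.mem_coe.mpr (Finset.mem_of_mem_erase (Finset.mem_coe.mp hx))
    · rw [Subgroup.closure_le]
      intro x hx
      by_cases hxb : x = b
      · rw [hxb]; exact hmem
      · exact Subgroup.subset_closure (Finset.mem_coe.mpr
          (Finset.mem_erase.mpr ⟨hxb, Finset.mem_coe.mp hx⟩))
  have h1 := two_pow_le B hind
  have h2 : Nat.card (Subgroup.closure (B : Set (Perm (Fin n)))) ≤ n.factorial := by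
    have := Subgroup.card_le_card_group (Subgroup.closure (B : Set (Perm (Fin n))))
    rwa [Nat.card_eq_fintype_card (α := Perm (Fin n)), Fintype.card_perm, Fintype.card_fin]
      at this
  have h3 : n.factorial ≤ 2 ^ (n ^ 2) := by
    calc n.factorial ≤ n ^ n := Nat.factorial_le_pow n
      _ ≤ (2 ^ n) ^ n := Nat.pow_le_pow_left (Nat.lt_two_pow_self).le n
      _ = 2 ^ (n ^ 2) := by rw [← pow_mul, sq]
  exact (Nat.pow_le_pow_iff_right (by norm_num)).mp (h1.trans (h2.trans h3))

end Pool.Agent.SymDiam.H98
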