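import Pool.Agent.Lib.MP_7b6720_al.INV.Iface

set_option autoImplicit false

/-!
# TRIV: the trivial bound for the diameter
-/

namespace Pool.Agent.SymDiam.H98

open Equiv Finset

/-- every element of the closure is a product of a list of generators and inverses -/
theorem exists_list {n : ℕ} (A : Set (Perm (Fin n))) (g : Perm (Fin n))
    (hg : g ∈ Subgroup.closure A) :
    ∃ l : List (Perm (Fin n)), (∀ y ∈ l, y ∈ A ∨ y⁻¹ ∈ A) ∧ l.prod = g := by
  have h1 : g ∈ Submonoid.closure (A ∪ A⁻¹) := by
    rw [← Subgroup.closure_toSubmonoid]; exact hg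
  obtain ⟨l, hl, hp⟩ := Submonoid.exists_list_of_mem_closure h1
  refine ⟨l, fun y hy => ?_, hp⟩
  rcases hl y hy with h | h
  · exact Or.inl h
  · exact Or.inr h

/-- a list longer than the number of elements of the group can be shortened -/
theorem shorten {G : Type} [Group G] [Fintype G] (l : List G) (h : Fintype.card G < l.length) :
    ∃ l' : List G, l'.length < l.length ∧ (∀ y ∈ l', y ∈ l) ∧ l'.prod = l.prod := by
  -- partial products
  let p : Fin l.length → G := fun i => (l.take i).prod
  obtain ⟨i, j, hij, hp⟩ := Fintype.exists_ne_map_eq_of_card_lt p (by simpa using h)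
  wlog hlt : i < j generalizing i j
  · exact this j i hij.symm hp.symm (lt_of_le_of_ne (not_lt.mp hlt) hij.symm)
  have hi := i.2
  have hj := j.2
  have hlt' : (i : ℕ) < (j : ℕ) := hlt
  refine ⟨l.take i ++ l.drop j, ?_, ?_, ?_⟩
  · rw [List.length_append, List.length_take, List.length_drop]
    omega
  · intro y hy
    rcases List.mem_append.mp hy with h | h
    · exact List.mem_of_mem_take h
    · exact List.mem_of_mem_drop h
  · have hp' : (l.take i).prod = (l.take j).prod := hp
    rw [List.prod_append, hp', ← List.prod_append, List.take_append_drop]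

theorem triv : TrivS := by
  intro n A g hg
  have hex : ∃ m : ℕ, ∃ l : List (Perm (Fin n)), l.length = m ∧
      (∀ y ∈ l, y ∈ A ∨ y⁻¹ ∈ A) ∧ l.prod = g := by
    obtain ⟨l, h1, h2⟩ := exists_list A g hg
    exact ⟨l.length, l, rfl, h1, h2⟩
  classical
  obtain ⟨l, hl, hA, hp⟩ := Nat.find_spec hex
  refine ⟨l, ?_, hA, hp⟩
  by_contra hcon
  push Not at hcon
  have hc : Fintype.card (Perm (Fin n)) < l.length := by
    rw [Fintype.card_perm, Fintype.card_fin]; exact hcon
  obtain ⟨l', h1, h2, h3⟩ := shorten l hc
  have := Nat.find_min hex (m := l'.length) (by rw [← hl]; exact h1)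
  exact this ⟨l', rfl, fun y hy => hA y (h2 y hy), by rw [h3, hp]⟩

end Pool.Agent.SymDiam.H98
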